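import Pool.Agent.H620R3.OP.Stmts

set_option autoImplicit false

namespace Pool.Agent.H620R3.OP

theorem taskAff : TaskAff := by
  intro Y hinj Tr Tu Tt hTr hTu hTt hf1 hf2
  obtain ⟨l1, c1, h1⟩ := hf1
  obtain ⟨l2, c2, ⟨e0, e3, e5, e6, e8⟩, e13⟩ := hf2
  -- linear parts
  let R : (Fin 5 → ℝ) →ₗ[ℝ] (Fin 5 → ℝ) := (Tr : (Fin 5 → ℝ) →ᵃ[ℝ] (Fin 5 → ℝ)).linear
  let U : (Fin 5 → ℝ) →ₗ[ℝ] (Fin 5 → ℝ) := (Tu : (Fin 5 → ℝ) →ᵃ[ℝ] (Fin 5 → ℝ)).linear
  let T : (Fin 5 → ℝ) →ₗ[ℝ] (Fin 5 → ℝ) := (Tt : (Fin 5 → ℝ) →ᵃ[ℝ] (Fin 5 → ℝ)).linear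
  have hR : ∀ i j, R (Y i - Y j) = Y (pr i) - Y (pr j) := by
    intro i j
    have := AffineMap.linearMap_vsub (Tr : (Fin 5 → ℝ) →ᵃ[ℝ] (Fin 5 → ℝ)) (Y i) (Y j)
    simp only [vsub_eq_sub] at this
    show R (Y i - Y j) = _
    rw [this]
    show Tr (Y i) - Tr (Y j) = _
    rw [hTr, hTr]
  have hU : ∀ i j, U (Y i - Y j) = Y (pu i) - Y (pu j) := by
    intro i j
    have := AffineMap.linearMap_vsub (Tu : (Fin 5 → ℝ) →ᵃ[ℝ] (Fin 5 → ℝ)) (Y i) (Y j)
    simp only [vsub_eq_sub] at this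
    show U (Y i - Y j) = _
    rw [this]
    show Tu (Y i) - Tu (Y j) = _
    rw [hTu, hTu]
  have hT : ∀ i j, T (Y i - Y j) = Y (pt i) - Y (pt j) := by
    intro i j
    have := AffineMap.linearMap_vsub (Tt : (Fin 5 → ℝ) →ᵃ[ℝ] (Fin 5 → ℝ)) (Y i) (Y j)
    simp only [vsub_eq_sub] at this
    show T (Y i - Y j) = _
    rw [this]
    show Tt (Y i) - Tt (Y j) = _
    rw [hTt, hTt]
  clear_value R U T
  -- values of the permutations
  have R04 : R (Y 0 - Y 4) = Y 1 - Y 5 := hR 0 4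
  have R15 : R (Y 1 - Y 5) = Y 2 - Y 6 := hR 1 5
  have R26 : R (Y 2 - Y 6) = Y 3 - Y 7 := hR 2 6
  have R37 : R (Y 3 - Y 7) = Y 4 - Y 0 := hR 3 7
  have R913 : R (Y 9 - Y 13) = Y 10 - Y 14 := hR 9 13
  have R1014 : R (Y 10 - Y 14) = Y 11 - Y 15 := hR 10 14
  have R1115 : R (Y 11 - Y 15) = Y 12 - Y 8 := hR 11 15
  have R128 : R (Y 12 - Y 8) = Y 13 - Y 9 := hR 12 8
  obtain ⟨s0, hs0⟩ : ∃ s, s = (Y 0 - Y 4) + (Y 9 - Y 13) := ⟨_, rfl⟩
  obtain ⟨s1, hs1⟩ : ∃ s, s = (Y 1 - Y 5) + (Y 10 - Y 14) := ⟨_, rfl⟩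
  obtain ⟨s2, hs2⟩ : ∃ s, s = (Y 2 - Y 6) + (Y 11 - Y 15) := ⟨_, rfl⟩
  obtain ⟨s3, hs3⟩ : ∃ s, s = (Y 3 - Y 7) + (Y 12 - Y 8) := ⟨_, rfl⟩
  obtain ⟨a0, ha0⟩ : ∃ s, s = (Y 0 - Y 4) - (Y 9 - Y 13) := ⟨_, rfl⟩
  obtain ⟨a1, ha1⟩ : ∃ s, s = (Y 1 - Y 5) - (Y 10 - Y 14) := ⟨_, rfl⟩
  obtain ⟨a2, ha2⟩ : ∃ s, s = (Y 2 - Y 6) - (Y 11 - Y 15) := ⟨_, rfl⟩
  obtain ⟨a3, ha3⟩ : ∃ s, s = (Y 3 - Y 7) - (Y 12 - Y 8) := ⟨_, rfl⟩
  obtain ⟨t, ht⟩ : ∃ t, t = (Y 0 - Y 8) + (Y 1 - Y 9) + (Y 2 - Y 10) + (Y 3 - Y 11) +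
    (Y 4 - Y 12) + (Y 5 - Y 13) + (Y 6 - Y 14) + (Y 7 - Y 15) := ⟨_, rfl⟩
  have Rs0 : R s0 = s1 := by rw [hs0, map_add, R04, R913, hs1]
  have Rs1 : R s1 = s2 := by rw [hs1, map_add, R15, R1014, hs2]
  have Rs2 : R s2 = s3 := by rw [hs2, map_add, R26, R1115, hs3]
  have Rs3 : R s3 = -s0 := by rw [hs3, map_add, R37, R128, hs0]; abel
  have Ra0 : R a0 = a1 := by rw [ha0, map_sub, R04, R913, ha1]
  have Ra1 : R a1 = a2 := by rw [ha1, map_sub, R15, R1014, ha2]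
  have Ra2 : R a2 = a3 := by rw [ha2, map_sub, R26, R1115, ha3]
  have Ra3 : R a3 = -a0 := by rw [ha3, map_sub, R37, R128, ha0]; abel
  have Rt : R t = t := by
    rw [ht]; simp only [map_add, hR]
    show (Y 1 - Y 9) + (Y 2 - Y 10) + (Y 3 - Y 11) + (Y 4 - Y 12) + (Y 5 - Y 13) + (Y 6 - Y 14) +
      (Y 7 - Y 15) + (Y 0 - Y 8) = _
    abel
  have Us : ∀ i j k l, pu i = k → pu j = l → pu k = i → pu l = j →
      U ((Y i - Y j) + (Y k - Y l)) = (Y i - Y j) + (Y k - Y l) := by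
    intro i j k l h1 h2 h3 h4
    rw [map_add, hU, hU, h1, h2, h3, h4]; abel
  have Ua : ∀ i j k l, pu i = k → pu j = l → pu k = i → pu l = j →
      U ((Y i - Y j) - (Y k - Y l)) = -((Y i - Y j) - (Y k - Y l)) := by
    intro i j k l h1 h2 h3 h4
    rw [map_sub, hU, hU, h1, h2, h3, h4]; abel
  have Us0 : U s0 = s0 := by rw [hs0]; exact Us 0 4 9 13 rfl rfl rfl rfl
  have Us1 : U s1 = s1 := by rw [hs1]; exact Us 1 5 10 14 rfl rfl rfl rfl
  have Us2 : U s2 = s2 := by rw [hs2]; exact Us 2 6 11 15 rfl rfl rfl rfl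
  have Ua0 : U a0 = -a0 := by rw [ha0]; exact Ua 0 4 9 13 rfl rfl rfl rfl
  have Ua1 : U a1 = -a1 := by rw [ha1]; exact Ua 1 5 10 14 rfl rfl rfl rfl
  have Ut : U t = -t := by
    rw [ht]; simp only [map_add, hU]
    show (Y 9 - Y 7) + (Y 10 - Y 0) + (Y 11 - Y 1) + (Y 12 - Y 2) + (Y 13 - Y 3) + (Y 14 - Y 4) +
      (Y 15 - Y 5) + (Y 8 - Y 6) = _
    abel
  -- T: x -> 3 x on top, (x,1) -> (3x+4,1)
  have Ts0 : T s0 = a0 := by
    rw [hs0, map_add, hT, hT, ha0]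
    show (Y 0 - Y 4) + (Y 13 - Y 9) = _
    abel
  have Ts1 : T s1 = a3 := by
    rw [hs1, map_add, hT, hT, ha3]
    show (Y 3 - Y 7) + (Y 8 - Y 12) = _
    abel
  have Ts2 : T s2 = -a2 := by
    rw [hs2, map_add, hT, hT, ha2]
    show (Y 6 - Y 2) + (Y 11 - Y 15) = _
    abel
  have Ta0 : T a0 = s0 := by
    rw [ha0, map_sub, hT, hT, hs0]
    show (Y 0 - Y 4) - (Y 13 - Y 9) = _
    abel
  have hs0ne : s0 ≠ 0 := by
    intro h
    have h2 : a0 = 0 := by rw [← Ts0, h, map_zero]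
    have h3 : (2 : ℝ) • (Y 0 - Y 4) = 0 := by
      have : (2 : ℝ) • (Y 0 - Y 4) = s0 + a0 := by rw [hs0, ha0]; module
      rw [this, h, h2, add_zero]
    have h4 : Y 0 - Y 4 = 0 := by
      rcases smul_eq_zero.1 h3 with h5 | h5
      · norm_num at h5
      · exact h5
    exact absurd (hinj (sub_eq_zero.1 h4)) (by decide)
  have ha0ne : a0 ≠ 0 := by
    intro h
    apply hs0ne
    rw [← Ta0, h, map_zero]
  have htne : t ≠ 0 := by
    intro h
    have h2 : l1 t = 0 := by rw [h, map_zero]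
    rw [ht] at h2
    simp only [map_add, map_sub] at h2
    have k0 := (h1 0).1 (by decide)
    have k1 := (h1 1).1 (by decide)
    have k2 := (h1 2).1 (by decide)
    have k3 := (h1 3).1 (by decide)
    have k4 := (h1 4).1 (by decide)
    have k5 := (h1 5).1 (by decide)
    have k6 := (h1 6).1 (by decide)
    have k7 := (h1 7).1 (by decide)
    have k8 := (h1 8).2 (by decide)
    have k9 := (h1 9).2 (by decide)
    have k10 := (h1 10).2 (by decide)
    have k11 := (h1 11).2 (by decide)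
    have k12 := (h1 12).2 (by decide)
    have k13 := (h1 13).2 (by decide)
    have k14 := (h1 14).2 (by decide)
    have k15 := (h1 15).2 (by decide)
    linarith
  -- two dimensional independence
  have ind2 : ∀ v0 v1 v2 v3 : Fin 5 → ℝ, R v0 = v1 → R v1 = v2 → R v2 = v3 → R v3 = -v0 →
      v0 ≠ 0 → ∀ p q : ℝ, p • v0 + q • v1 = 0 → p = 0 ∧ q = 0 := by
    intro v0 v1 v2 v3 r0 r1 r2 r3 hne p q h
    by_cases hq : q = 0
    · subst hq
      rw [zero_smul, add_zero] at h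
      rcases smul_eq_zero.1 h with h | h
      · exact ⟨h, rfl⟩
      · exact absurd h hne
    · exfalso
      obtain ⟨m, hm⟩ : ∃ m : ℝ, v1 = m • v0 := by
        refine ⟨-(q⁻¹ * p), ?_⟩
        have : q⁻¹ • (p • v0 + q • v1) = 0 := by rw [h, smul_zero]
        rw [smul_add, smul_smul, smul_smul, inv_mul_cancel₀ hq, one_smul] at this
        rw [neg_smul]
        exact eq_neg_of_add_eq_zero_right this
      have e2 : v2 = (m * m) • v0 := by rw [← r1, hm, map_smul, r0, hm, smul_smul]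
      have e3 : v3 = (m * m * m) • v0 := by rw [← r2, e2, map_smul, r0, hm, smul_smul]
      have e4 : -v0 = (m * m * m * m) • v0 := by rw [← r3, e3, map_smul, r0, hm, smul_smul]
      have e5 : (m * m * m * m + 1) • v0 = 0 := by
        rw [add_smul, one_smul, ← e4]; abel
      rcases smul_eq_zero.1 e5 with h6 | h6
      · nlinarith [mul_self_nonneg (m * m)]
      · exact hne h6
  -- splitting of a relation
  have split : ∀ x0 x1 y0 y1 z : ℝ, x0 • s0 + x1 • s1 + y0 • a0 + y1 • a1 + z • t = 0 →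
      x0 • s0 + x1 • s1 = 0 ∧ y0 • a0 + y1 • a1 + z • t = 0 := by
    intro x0 x1 y0 y1 z h
    have h2 := congrArg U h
    simp only [map_add, map_smul, map_zero, Us0, Us1, Ua0, Ua1, Ut] at h2
    constructor
    · have : (2 : ℝ) • (x0 • s0 + x1 • s1) = 0 := by
        calc (2 : ℝ) • (x0 • s0 + x1 • s1) = (x0 • s0 + x1 • s1 + y0 • a0 + y1 • a1 + z • t) +
            (x0 • s0 + x1 • s1 + y0 • -a0 + y1 • -a1 + z • -t) := by module
          _ = 0 := by rw [h, h2, add_zero]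
      rcases smul_eq_zero.1 this with h5 | h5
      · norm_num at h5
      · exact h5
    · have : (2 : ℝ) • (y0 • a0 + y1 • a1 + z • t) = 0 := by
        calc (2 : ℝ) • (y0 • a0 + y1 • a1 + z • t) = (x0 • s0 + x1 • s1 + y0 • a0 + y1 • a1 + z • t) -
            (x0 • s0 + x1 • s1 + y0 • -a0 + y1 • -a1 + z • -t) := by module
          _ = 0 := by rw [h, h2, sub_zero]
      rcases smul_eq_zero.1 this with h5 | h5
      · norm_num at h5
      · exact h5
  have R4a0 : R (R (R (R a0))) = -a0 := by rw [Ra0, Ra1, Ra2, Ra3]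
  have R4a1 : R (R (R (R a1))) = -a1 := by rw [Ra1, Ra2, Ra3, map_neg, Ra0]
  have R4s0 : R (R (R (R s0))) = -s0 := by rw [Rs0, Rs1, Rs2, Rs3]
  have R4s1 : R (R (R (R s1))) = -s1 := by rw [Rs1, Rs2, Rs3, map_neg, Rs0]
  have R4t : R (R (R (R t))) = t := by rw [Rt, Rt, Rt, Rt]
  have li : LinearIndependent ℝ ![s0, s1, a0, a1, t] := by
    rw [Fintype.linearIndependent_iff]
    intro g hg
    simp only [Fin.sum_univ_five] at hg
    have hg' : g 0 • s0 + g 1 • s1 + g 2 • a0 + g 3 • a1 + g 4 • t = 0 := hg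
    obtain ⟨p1, p2⟩ := split _ _ _ _ _ hg'
    obtain ⟨q0, q1⟩ := ind2 s0 s1 s2 s3 Rs0 Rs1 Rs2 Rs3 hs0ne _ _ p1
    have p3 := congrArg (fun v => R (R (R (R v)))) p2
    simp only [map_add, map_smul, map_zero, R4a0, R4a1, R4t] at p3
    have p4 : (2 : ℝ) • (g 4 • t) = 0 := by
      calc (2 : ℝ) • (g 4 • t) = (g 2 • a0 + g 3 • a1 + g 4 • t) +
          (g 2 • -a0 + g 3 • -a1 + g 4 • t) := by module
        _ = 0 := by rw [p2, p3, add_zero]
    have q4 : g 4 = 0 := by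
      rcases smul_eq_zero.1 p4 with h5 | h5
      · norm_num at h5
      · rcases smul_eq_zero.1 h5 with h6 | h6
        · exact h6
        · exact absurd h6 htne
    rw [q4, zero_smul, add_zero] at p2
    obtain ⟨q2, q3⟩ := ind2 a0 a1 a2 a3 Ra0 Ra1 Ra2 Ra3 ha0ne _ _ p2
    intro i
    fin_cases i
    · exact q0
    · exact q1
    · exact q2
    · exact q3
    · exact q4
  have expand : ∀ v : Fin 5 → ℝ, ∃ x0 x1 y0 y1 z : ℝ,
      v = x0 • s0 + x1 • s1 + y0 • a0 + y1 • a1 + z • t := by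
    intro v
    let b := basisOfLinearIndependentOfCardEqFinrank li (by simp)
    have hb := b.sum_repr v
    simp only [Fin.sum_univ_five] at hb
    have hb' : ∀ i, b i = ![s0, s1, a0, a1, t] i := fun i => by
      simp only [b, coe_basisOfLinearIndependentOfCardEqFinrank]
    rw [hb', hb', hb', hb', hb'] at hb
    exact ⟨_, _, _, _, _, hb.symm⟩
  -- recursion for s
  obtain ⟨x0, x1, y0, y1, z, hx⟩ := expand s2
  have hUx := congrArg U hx
  simp only [map_add, map_smul, Us0, Us1, Us2, Ua0, Ua1, Ut] at hUx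
  have hrest : y0 • a0 + y1 • a1 + z • t = 0 := by
    have : (2 : ℝ) • (y0 • a0 + y1 • a1 + z • t) = 0 := by
      calc (2 : ℝ) • (y0 • a0 + y1 • a1 + z • t) = (x0 • s0 + x1 • s1 + y0 • a0 + y1 • a1 + z • t) -
          (x0 • s0 + x1 • s1 + y0 • -a0 + y1 • -a1 + z • -t) := by module
        _ = 0 := by rw [← hx, ← hUx, sub_self]
    rcases smul_eq_zero.1 this with h5 | h5
    · norm_num at h5
    · exact h5
  have hs2' : s2 = x0 • s0 + x1 • s1 := by
    calc s2 = (x0 • s0 + x1 • s1) + (y0 • a0 + y1 • a1 + z • t) := by rw [hx]; abel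
      _ = _ := by rw [hrest, add_zero]
  have hs3' : s3 = x0 • s1 + x1 • s2 := by rw [← Rs2, hs2', map_add, map_smul, map_smul, Rs0, Rs1, ← hs2']
  have hs4' : -s0 = x0 • s2 + x1 • s3 := by
    rw [← Rs3, hs3', map_add, map_smul, map_smul, Rs1, Rs2, ← hs3']
  have hrel : (x0 * x0 + x1 * (x1 * x0) + 1) • s0 + (x0 * x1 + x1 * (x0 + x1 * x1)) • s1 = 0 := by
    have e : -s0 = x0 • (x0 • s0 + x1 • s1) + x1 • (x0 • s1 + x1 • (x0 • s0 + x1 • s1)) := by
      rw [← hs2', ← hs3', ← hs4']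
    have e2 : x0 • (x0 • s0 + x1 • s1) + x1 • (x0 • s1 + x1 • (x0 • s0 + x1 • s1)) + s0 = 0 := by
      rw [← e]; abel
    rw [← e2]; module
  obtain ⟨r1, r2⟩ := ind2 s0 s1 s2 s3 Rs0 Rs1 Rs2 Rs3 hs0ne _ _ hrel
  have hx1 : x1 ≠ 0 := by
    intro h
    rw [h] at r1
    nlinarith [mul_self_nonneg x0]
  have r3 : x1 * x1 = -2 * x0 := by
    have : x1 * (x1 * x1 + 2 * x0) = 0 := by linear_combination r2
    rcases mul_eq_zero.1 this with h | h
    · exact absurd h hx1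
    · linarith
  have hx0 : x0 = -1 := by
    have h4 : x0 * x0 = 1 := by
      have : x0 * x0 + x1 * x1 * x0 + 1 = 0 := by linear_combination r1
      rw [r3] at this
      linarith
    have h5 : x0 ≤ 0 := by nlinarith [mul_self_nonneg x1]
    have h6 : (x0 + 1) * (x0 - 1) = 0 := by linear_combination h4
    rcases mul_eq_zero.1 h6 with h | h
    · linarith
    · linarith
  subst hx0
  -- recursion for a:  T applied to s2 = x1 s1 - s0
  have ha2' : a2 = a0 - x1 • a3 := by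
    have := congrArg T hs2'
    simp only [map_add, map_smul, Ts0, Ts1, Ts2] at this
    calc a2 = -(-a2) := by abel
      _ = -((-1 : ℝ) • a0 + x1 • a3) := by rw [this]
      _ = _ := by module
  -- apply R : a3 = a1 + x1 a0
  have ha3' : a3 = a1 + x1 • a0 := by
    rw [← Ra2, ha2', map_sub, map_smul, Ra0, Ra3]; module
  -- d = 0
  obtain ⟨d, hd⟩ : ∃ d, d = (Y 0 - Y 1) + (Y 4 - Y 5) := ⟨_, rfl⟩
  have hd1 : R d = (Y 1 - Y 2) + (Y 5 - Y 6) := by rw [hd, map_add, hR, hR]; rfl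
  have hd2 : R (R d) = (Y 2 - Y 3) + (Y 6 - Y 7) := by rw [hd1, map_add, hR, hR]; rfl
  have hd3 : R (R (R d)) = (Y 3 - Y 4) + (Y 7 - Y 0) := by rw [hd2, map_add, hR, hR]; rfl
  have hd4 : R (R (R (R d))) = d := by
    rw [hd3, map_add, hR, hR, hd]
    show (Y 4 - Y 5) + (Y 0 - Y 1) = _
    abel
  obtain ⟨w0, w1, w2, w3, w4, hw⟩ := expand d
  have hw4 := congrArg (fun v => R (R (R (R v)))) hw
  simp only [map_add, map_smul, hd4, R4s0, R4s1, R4a0, R4a1, R4t] at hw4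
  have hdt : d = w4 • t := by
    have : (2 : ℝ) • (d - w4 • t) = 0 := by
      calc (2 : ℝ) • (d - w4 • t) = d + d - (2 * w4) • t := by module
        _ = (w0 • s0 + w1 • s1 + w2 • a0 + w3 • a1 + w4 • t) +
            (w0 • -s0 + w1 • -s1 + w2 • -a0 + w3 • -a1 + w4 • t) - (2 * w4) • t := by
          rw [← hw, ← hw4]
        _ = 0 := by module
    rcases smul_eq_zero.1 this with h5 | h5
    · norm_num at h5
    · exact sub_eq_zero.1 h5
  have hRd : R d = d := by rw [hdt, map_smul, Rt]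
  have hd0 : d = 0 := by
    have h5 : (4 : ℝ) • d = 0 := by
      calc (4 : ℝ) • d = d + R d + R (R d) + R (R (R d)) := by rw [hRd, hRd, hRd]; module
        _ = 0 := by rw [hd3, hd2, hd1, hd]; abel
    rcases smul_eq_zero.1 h5 with h6 | h6
    · norm_num at h6
    · exact h6
  -- constancy on the top and on the bottom
  have top01 : (Y 0 - Y 1) + (Y 4 - Y 5) = 0 := by rw [← hd, hd0]
  have top12 : (Y 1 - Y 2) + (Y 5 - Y 6) = 0 := by rw [← hd1, hd0, map_zero]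
  have top23 : (Y 2 - Y 3) + (Y 6 - Y 7) = 0 := by rw [← hd2, hd0, map_zero, map_zero]
  have bot01 : (Y 9 - Y 10) + (Y 13 - Y 14) = 0 := by
    have := congrArg U top01
    rw [map_add, hU, hU, map_zero] at this
    exact this
  have bot12 : (Y 10 - Y 11) + (Y 14 - Y 15) = 0 := by
    have := congrArg U top12
    rw [map_add, hU, hU, map_zero] at this
    exact this
  have bot23 : (Y 11 - Y 12) + (Y 15 - Y 8) = 0 := by
    have := congrArg U top23
    rw [map_add, hU, hU, map_zero] at this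
    exact this
  -- apply l2
  have L : ∀ v : Fin 5 → ℝ, v = 0 → l2 v = 0 := fun v h => by rw [h, map_zero]
  have m1 := L _ top01
  have m2 := L _ top12
  have m3 := L _ top23
  have m4 := L _ bot01
  have m5 := L _ bot12
  have m6 := L _ bot23
  have m7 := congrArg l2 hs2'
  have m8 := congrArg l2 hs3'
  have m9 := congrArg l2 ha2'
  have m10 := congrArg l2 ha3'
  rw [hs0, hs1, hs2] at m7
  rw [hs1, hs2, hs3] at m8
  rw [ha0, ha2, ha3] at m9
  rw [ha0, ha1, ha3] at m10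
  simp only [map_add, map_sub, map_smul, smul_eq_mul] at m1 m2 m3 m4 m5 m6 m7 m8 m9 m10
  have hx12 : x1 * x1 = 2 := by rw [r3]; norm_num
  have final : x1 * (l2 (Y 8) - l2 (Y 13)) = l2 (Y 0) - l2 (Y 3) - l2 (Y 5) + l2 (Y 6) := by
    linear_combination (1 / 4) * ((x1 - 1) * m7 + (1 - x1) * m8 + m9 + m10) +
      (1 / 4) * ((l2 (Y 1) - l2 (Y 5) + (l2 (Y 10) - l2 (Y 14))) -
        (l2 (Y 2) - l2 (Y 6) + (l2 (Y 11) - l2 (Y 15)))) * hx12 -
      (x1 / 2) * (m4 + m5 + m6) - (1 / 2) * (m1 + m3)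
  rw [e0, e3, e5, e6, e8] at final
  have : x1 * (c2 - l2 (Y 13)) = 0 := by rw [final]; ring
  rcases mul_eq_zero.1 this with h | h
  · exact hx1 h
  · linarith

end Pool.Agent.H620R3.OP
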