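import Mathlib
import Pool.Agent.H620R3.OP.Tables

/-!
Project H620-OP: the three permutations preserve the faces.
-/

set_option autoImplicit false
set_option maxHeartbeats 4000000

namespace Pool.Agent.H620R3.OP

theorem y_injective : Function.Injective y := by
  have h : ∀ i j : Fin 16, Yi i = Yi j → i = j := by decide +kernel
  intro i j hij
  apply h
  funext k
  have := congrFun hij k
  unfold y at this
  exact_mod_cast this

/-- index version of `Fac` -/
def FJ (I : Set (Fin 16)) : Prop :=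
  ∃ ℓ : (Fin 5 → ℝ) →ₗ[ℝ] ℝ, ∃ c : ℝ, (∀ i, ℓ (y i) ≤ c) ∧ ∀ i, i ∈ I ↔ ℓ (y i) = c

theorem fac_iff (I : Set (Fin 16)) : Fac (Set.range y) (y '' I) ↔ FJ I := by
  constructor
  · rintro ⟨ℓ, c, h1, h2⟩
    refine ⟨ℓ, c, fun i => h1 _ ⟨i, rfl⟩, fun i => ?_⟩
    have : i ∈ I ↔ y i ∈ y '' I := by
      constructor
      · intro h; exact ⟨i, h, rfl⟩
      · rintro ⟨j, hj, e⟩; rw [← y_injective e]; exact hj
    rw [this, h2]
    constructor
    · rintro ⟨_, h⟩; exact h
    · intro h; exact ⟨⟨i, rfl⟩, h⟩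
  · rintro ⟨ℓ, c, h1, h2⟩
    refine ⟨ℓ, c, ?_, ?_⟩
    · rintro x ⟨i, rfl⟩; exact h1 i
    · ext x
      constructor
      · rintro ⟨i, hi, rfl⟩; exact ⟨⟨i, rfl⟩, (h2 i).1 hi⟩
      · rintro ⟨⟨i, rfl⟩, h⟩; exact ⟨i, (h2 i).2 h, rfl⟩

theorem FJ_inter {I J : Set (Fin 16)} (hI : FJ I) (hJ : FJ J) : FJ (I ∩ J) := by
  obtain ⟨ℓ, c, h1, h2⟩ := hI
  obtain ⟨ℓ', c', h1', h2'⟩ := hJ
  refine ⟨ℓ + ℓ', c + c', fun i => ?_, fun i => ?_⟩
  · rw [LinearMap.add_apply]; exact add_le_add (h1 i) (h1' i)
  · rw [Set.mem_inter_iff, h2, h2', LinearMap.add_apply]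
    constructor
    · rintro ⟨a, b⟩; rw [a, b]
    · intro h
      have a := h1 i; have b := h1' i
      constructor <;> linarith

theorem FJ_univ : FJ Set.univ := ⟨0, 0, fun i => by simp, fun i => by simp⟩

/-- index set of a mask -/
def idxs (m : ℕ) : Set (Fin 16) := {i | tb m i.val = true}

/-- integer functionals -/
noncomputable def lin (a : Fin 5 → ℤ) : (Fin 5 → ℝ) →ₗ[ℝ] ℝ :=
  ∑ k, (a k : ℝ) • LinearMap.proj k

theorem lin_y (a : Fin 5 → ℤ) (i : Fin 16) :
    lin a (y i) = (((List.finRange 5).map fun k => a k * Yi i k).sum : ℤ) := by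
  rw [← Fin.sum_univ_def]
  unfold lin y
  simp [LinearMap.sum_apply]

theorem FJ_facet (f : List ℕ) (hf : f ∈ FT) : FJ (idxs (f.getD 0 0)) := by
  have h := (List.all_eq_true.mp FT_ok) f hf
  unfold facOK at h
  rw [decide_eq_true_eq] at h
  refine ⟨lin fun k => ((f.getD (k.val + 1) 0 : ℕ) - 100 : ℤ), (lev f : ℝ), fun i => ?_,
    fun i => ?_⟩
  · rw [lin_y]
    exact_mod_cast (h i).1
  · rw [lin_y]
    unfold idxs
    rw [Set.mem_ofPred_eq, (h i).2]
    unfold dotf
    constructor
    · intro e; exact_mod_cast e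
    · intro e; exact_mod_cast e

theorem rule_sound (r : List ℕ) (hr : ruleOK r = true) (I : Set (Fin 16)) (hI : FJ I)
    (hN : idxs (r.getD 0 0) ⊆ I) : idxs (r.getD 1 0) ⊆ I := by
  obtain ⟨ℓ, c, h1, h2⟩ := hI
  unfold ruleOK at hr
  rw [Bool.and_eq_true, Bool.and_eq_true, decide_eq_true_eq, decide_eq_true_eq,
    decide_eq_true_eq] at hr
  obtain ⟨r1, r2, r3⟩ := hr
  -- the weighted sum of `c - ℓ (y i)` vanishes
  have hy : ∑ i : Fin 16, ((wv r i : ℤ) : ℝ) • y i = 0 := by
    funext k
    rw [Finset.sum_apply]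
    have := r1 k
    rw [← Fin.sum_univ_def] at this
    have h' : ((∑ i : Fin 16, wv r i * Yi i k : ℤ) : ℝ) = 0 := by rw [this]; simp
    push_cast at h'
    simpa [y] using h'
  have hw : ∑ i : Fin 16, ((wv r i : ℤ) : ℝ) = 0 := by
    rw [← Fin.sum_univ_def] at r2
    have h' : ((∑ i : Fin 16, wv r i : ℤ) : ℝ) = 0 := by rw [r2]; simp
    push_cast at h'
    exact h'
  have hs : ∑ i : Fin 16, ((wv r i : ℤ) : ℝ) * (c - ℓ (y i)) = 0 := by
    have e1 : ∑ i : Fin 16, ((wv r i : ℤ) : ℝ) * (c - ℓ (y i))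
        = (∑ i : Fin 16, ((wv r i : ℤ) : ℝ)) * c - ℓ (∑ i : Fin 16, ((wv r i : ℤ) : ℝ) • y i) := by
      rw [map_sum, Finset.sum_mul, ← Finset.sum_sub_distrib]
      refine Finset.sum_congr rfl fun i _ => ?_
      rw [map_smul, smul_eq_mul]; ring
    rw [e1, hw, hy]; simp
  have hterm : ∀ i : Fin 16, 0 ≤ ((wv r i : ℤ) : ℝ) * (c - ℓ (y i)) := by
    intro i
    rcases (r3 i).1 with h | h
    · have : i ∈ I := hN h
      rw [(h2 i).1 this]; simp
    · exact mul_nonneg (by exact_mod_cast h) (sub_nonneg.mpr (h1 i))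
  have hz := (Finset.sum_eq_zero_iff_of_nonneg (fun i _ => hterm i)).1 hs
  intro i hi
  rcases (r3 i).2 with h | h | h
  · unfold idxs at hi
    rw [Set.mem_ofPred_eq, h] at hi
    exact absurd hi (by simp)
  · exact hN h
  · rw [h2 i]
    have hz' := hz i (Finset.mem_univ i)
    rcases mul_eq_zero.mp hz' with h' | h'
    · have : (0 : ℝ) < ((wv r i : ℤ) : ℝ) := by exact_mod_cast h
      exact absurd h' this.ne'
    · linarith

/-! ### masks -/

theorem beq_iff (a b : ℕ) : Nat.beq a b = true ↔ a = b := by rw [Nat.beq_eq]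

theorem tb_eq (m i : ℕ) : tb m i = m.testBit i := by
  rw [Nat.testBit_eq_decide_div_mod_eq, ← Nat.shiftRight_eq_div_pow]
  rw [Bool.eq_iff_iff, decide_eq_true_eq]
  exact beq_iff _ _

theorem sb_idxs {N a : ℕ} (h : sb N a = true) : idxs N ⊆ idxs a := by
  unfold sb at h
  rw [beq_iff] at h
  intro i hi
  unfold idxs at *
  rw [Set.mem_ofPred_eq, tb_eq] at *
  have h' : (Nat.land a N).testBit i.val = true := by rw [h]; exact hi
  have : (a &&& N).testBit i.val = true := h'
  rw [Nat.testBit_and, Bool.and_eq_true] at this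
  exact this.1

theorem sb_lor {N a b : ℕ} (h : sb N a = true) : sb N (a ||| b) = true := by
  unfold sb at *
  rw [beq_iff] at *
  have h' : a &&& N = N := h
  show (a ||| b) &&& N = N
  rw [Nat.and_or_distrib_right, h']
  apply Nat.eq_of_testBit_eq
  intro i
  rw [Nat.testBit_or, Nat.testBit_and]
  cases N.testBit i <;> simp

theorem idxs_land (a b : ℕ) : idxs (Nat.land a b) = idxs a ∩ idxs b := by
  ext i
  unfold idxs
  rw [Set.mem_inter_iff, Set.mem_ofPred_eq, Set.mem_ofPred_eq, Set.mem_ofPred_eq, tb_eq, tb_eq, tb_eq]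
  show (a &&& b).testBit i.val = true ↔ _
  rw [Nat.testBit_and, Bool.and_eq_true]

theorem idxs_all : idxs 65535 = Set.univ := by
  have : ∀ i : Fin 16, tb 65535 i.val = true := by decide +kernel
  ext i
  simp only [Set.mem_univ, iff_true]
  exact this i

theorem exists_mask (I : Set (Fin 16)) : ∃ a < 2 ^ 16, idxs a = I := by
  classical
  refine ⟨Nat.ofBits fun i : Fin 16 => decide (i ∈ I), Nat.ofBits_lt_two_pow _, ?_⟩
  ext i
  unfold idxs
  rw [Set.mem_ofPred_eq, tb_eq, Nat.testBit_ofBits_lt _ _ i.isLt]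
  simp

theorem badk_lor {k a b : ℕ} (h : badk k a = true) : badk k (a ||| b) = true := by
  unfold badk at *
  rw [List.any_eq_true] at *
  obtain ⟨N, hN, h⟩ := h
  exact ⟨N, hN, sb_lor h⟩

theorem search_sound (k : ℕ) : ∀ a : ℕ, search k a = true → ∀ b < 2 ^ k,
    (∃ j, badk j (a ||| b) = true) ∨ antiOK (a ||| b) = false ∨ closedb (a ||| b) = true := by
  induction k with
  | zero =>
    intro a h b hb
    have hb0 : b = 0 := by simpa using hb
    subst hb0
    rw [Nat.or_zero]
    have h' : (!(antiOK a) || closedb a) = true := h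
    rw [Bool.or_eq_true, Bool.not_eq_true'] at h'
    exact Or.inr h'
  | succ k ih =>
    intro a h b hb
    have h' : (search k a && (badk k (a ||| 2 ^ k) || search k (a ||| 2 ^ k))) = true := h
    rw [Bool.and_eq_true, Bool.or_eq_true] at h'
    obtain ⟨ha, hc⟩ := h'
    by_cases hbk : b < 2 ^ k
    · exact ih a ha b hbk
    · push Not at hbk
      have hpow : 2 ^ (k + 1) = 2 ^ k + 2 ^ k := by ring
      have hlt : b - 2 ^ k < 2 ^ k := by omega
      have hbe : b = 2 ^ k ||| (b - 2 ^ k) := by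
        have h1 := Nat.two_pow_add_eq_or_of_lt hlt 1
        rw [mul_one] at h1
        rw [← h1]; omega
      have e : a ||| b = (a ||| 2 ^ k) ||| (b - 2 ^ k) := by
        rw [Nat.or_assoc, ← hbe]
      rw [e]
      rcases hc with hc | hc
      · exact Or.inl ⟨k, badk_lor hc⟩
      · exact ih _ hc _ hlt

theorem inter_sound (p : Fin 16 → Fin 16) (hp : Function.Bijective p) (a : ℕ) (L : List ℕ)
    (hL : ∀ f ∈ L, FJ (p '' idxs f)) : FJ (p '' idxs (inter a L)) := by
  induction L with
  | nil =>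
    show FJ (p '' idxs 65535)
    rw [idxs_all, Set.image_univ, hp.surjective.range_eq]
    exact FJ_univ
  | cons f L ih =>
    have ih' := ih fun g hg => hL g (List.mem_cons_of_mem _ hg)
    show FJ (p '' idxs (cond (sb a f) (Nat.land f (inter a L)) (inter a L)))
    cases sb a f
    · exact ih'
    · show FJ (p '' idxs (Nat.land f (inter a L)))
      rw [idxs_land, Set.image_inter hp.injective]
      exact FJ_inter (hL f List.mem_cons_self) ih'

theorem FJ_mask (f : ℕ) (hf : f ∈ FM) : FJ (idxs f) := by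
  unfold FM at hf
  rw [List.mem_map] at hf
  obtain ⟨g, hg, rfl⟩ := hf
  exact FJ_facet g hg

theorem perm_facets (p : Fin 16 → Fin 16) (hp : Function.Bijective p) (hok : permOK p = true) :
    ∀ f ∈ FM, FJ (p '' idxs f) := by
  intro f hf
  unfold permOK at hok
  rw [List.all_eq_true] at hok
  have h := hok f hf
  rw [List.any_eq_true] at h
  obtain ⟨f', hf', h⟩ := h
  rw [List.all_eq_true] at h
  have e : p '' idxs f = idxs f' := by
    ext j
    constructor
    · rintro ⟨i, hi, rfl⟩
      have := h i (List.mem_finRange i)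
      unfold idxs at *
      rw [Set.mem_ofPred_eq] at *
      rw [hi] at this
      simpa using this
    · intro hj
      obtain ⟨i, rfl⟩ := hp.surjective j
      refine ⟨i, ?_, rfl⟩
      have := h i (List.mem_finRange i)
      unfold idxs at *
      rw [Set.mem_ofPred_eq] at *
      rw [hj] at this
      simpa using this
  rw [e]
  exact FJ_mask f' hf'

theorem RA_lt : RA.all (fun r => Nat.blt (r.getD 1 0) 65536) = true := by decide +kernel

theorem sb_of_idxs {C a : ℕ} (hC : C < 2 ^ 16) (h : idxs C ⊆ idxs a) : sb C a = true := by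
  unfold sb
  rw [beq_iff]
  show a &&& C = C
  apply Nat.eq_of_testBit_eq
  intro i
  rw [Nat.testBit_and]
  by_cases hi : i < 16
  · by_cases hc : C.testBit i = true
    · have : (⟨i, hi⟩ : Fin 16) ∈ idxs a := by
        apply h
        unfold idxs
        rw [Set.mem_ofPred_eq, tb_eq]
        exact hc
      unfold idxs at this
      rw [Set.mem_ofPred_eq, tb_eq] at this
      rw [hc, show a.testBit i = true from this]
      rfl
    · rw [Bool.not_eq_true] at hc
      rw [hc, Bool.and_false]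
  · have : C.testBit i = false := Nat.testBit_lt_two_pow
      (lt_of_lt_of_le hC (Nat.pow_le_pow_right (by norm_num) (by omega)))
    rw [this, Bool.and_false]

theorem forward (p : Fin 16 → Fin 16) (hp : Function.Bijective p) (hok : permOK p = true)
    (I : Set (Fin 16)) (hI : FJ I) : FJ (p '' I) := by
  obtain ⟨a, ha, rfl⟩ := exists_mask I
  have h := search_sound 16 0 search_ok a ha
  rw [Nat.zero_or] at h
  rcases h with ⟨j, h⟩ | h | h
  · unfold badk at h
    rw [List.any_eq_true] at h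
    obtain ⟨N, hN, hs⟩ := h
    have hj : j < NLT.length := by
      by_contra hj
      rw [List.getD_eq_default _ _ (not_lt.mp hj)] at hN
      exact absurd hN (by simp)
    have hmem : NLT.getD j [] ∈ NLT := by
      rw [List.getD_eq_getElem _ _ hj]
      exact List.getElem_mem hj
    have h1 := (List.all_eq_true.mp NLT_ok) _ hmem
    have h2 := (List.all_eq_true.mp h1) N hN
    rw [List.any_eq_true] at h2
    obtain ⟨r, hr, hrN⟩ := h2
    rw [beq_iff] at hrN
    have h3 := rule_sound r ((List.all_eq_true.mp RN_ok) r hr) _ hI (by rw [hrN]; exact sb_idxs hs)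
    have h4 := (List.all_eq_true.mp RN_all) r hr
    rw [beq_iff] at h4
    rw [h4, idxs_all, Set.univ_subset_iff] at h3
    rw [h3, Set.image_univ, hp.surjective.range_eq]
    exact FJ_univ
  · exfalso
    unfold antiOK at h
    rw [List.all_eq_false] at h
    obtain ⟨r, hr, h⟩ := h
    rw [Bool.or_eq_true, Bool.not_eq_true', not_or, Bool.not_eq_false] at h
    obtain ⟨h1, h2⟩ := h
    have h3 := rule_sound r ((List.all_eq_true.mp RA_ok) r hr) _ hI (sb_idxs h1)
    have h4 := (List.all_eq_true.mp RA_lt) r hr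
    exact h2 (sb_of_idxs (by simpa [Nat.blt_eq] using h4) h3)
  · unfold closedb at h
    rw [beq_iff] at h
    have := inter_sound p hp a FM (perm_facets p hp hok)
    rwa [h] at this

theorem taskComb : TaskComb := by
  have key : ∀ p : Fin 16 → Fin 16, Function.Bijective p → permOK p = true →
      (∀ i, p (p (p (p (p (p (p (p i))))))) = i) → ∀ I : Set (Fin 16), FJ I ↔ FJ (p '' I) := by
    intro p hp hok h8 I
    have fw := forward p hp hok
    refine ⟨fw I, fun h => ?_⟩
    have h7 := fw _ (fw _ (fw _ (fw _ (fw _ (fw _ (fw _ h))))))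
    have e : p '' (p '' (p '' (p '' (p '' (p '' (p '' (p '' I))))))) = I := by
      simp only [← Set.image_comp]
      have : (p ∘ p ∘ p ∘ p ∘ p ∘ p ∘ p ∘ p) = id := by
        funext i; exact h8 i
      rw [this, Set.image_id]
    rwa [e] at h7
  intro p hp I
  rw [fac_iff, fac_iff]
  rcases hp with rfl | rfl | rfl
  · exact key pr (by decide +kernel) pr_ok (by decide +kernel) I
  · exact key pu (by decide +kernel) pu_ok (by decide +kernel) I
  · exact key pt (by decide +kernel) pt_ok (by decide +kernel) I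

end Pool.Agent.H620R3.OP
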