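import Mathlib
import Pool.Agent.H620R3.OP.Comb

/-!
Project H620-OP: assembly.
-/

set_option autoImplicit false
set_option maxHeartbeats 4000000

namespace Pool.Agent.H620R3.OP

theorem main (hAff : TaskAff) (hGrp : TaskGrp) (hSpan : TaskSpan) :
    ¬ (∀ (d : ℕ) (G : Subgroup (Matrix.GeneralLinearGroup (Fin d) ℝ)),
    (G : Set (Matrix.GeneralLinearGroup (Fin d) ℝ)).Finite →
    ∀ (orb : (Fin d → ℝ) → Set (Fin d → ℝ)),
      (∀ w, orb w = {x | ∃ g ∈ G, x = Matrix.mulVec (g : Matrix (Fin d) (Fin d) ℝ) w}) →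
    ∀ (facial : Set (Fin d → ℝ) → Set (Fin d → ℝ) → Prop),
      (∀ S A, facial S A ↔ ∃ ℓ : (Fin d → ℝ) →ₗ[ℝ] ℝ, ∃ c : ℝ,
          (∀ x ∈ S, ℓ x ≤ c) ∧ A = {x | x ∈ S ∧ ℓ x = c}) →
    ∀ v : Fin d → ℝ, affineSpan ℝ (orb v) = ⊤ →
    ∃ v₀ : Fin d → ℝ,
      (∃ f : (Fin d → ℝ) → (Fin d → ℝ), Set.BijOn f (orb v) (orb v₀) ∧
        ∀ A ⊆ orb v, (facial (orb v) A ↔ facial (orb v₀) (f '' A))) ∧
      ∀ σ : (Fin d → ℝ) → (Fin d → ℝ), Set.BijOn σ (orb v₀) (orb v₀) →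
        (∀ A ⊆ orb v₀, (facial (orb v₀) A ↔ facial (orb v₀) (σ '' A))) →
        ∃ T : (Fin d → ℝ) ≃ᵃ[ℝ] (Fin d → ℝ), ∀ x ∈ orb v₀, T x = σ x) := by
  intro H
  obtain ⟨G, hfin, horb⟩ := hGrp
  obtain ⟨v₀, ⟨f, hbij, hfac⟩, hsym⟩ := H 5 G hfin
    (fun w => {x | ∃ g ∈ G, x = Matrix.mulVec (g : Matrix (Fin 5) (Fin 5) ℝ) w})
    (fun w => rfl) Fac (fun S A => Iff.rfl) (y 0) (by rw [horb]; exact hSpan)
  simp only [horb] at hbij hfac
  generalize hO : {x | ∃ g ∈ G, x = Matrix.mulVec (g : Matrix (Fin 5) (Fin 5) ℝ) v₀} = O at *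
  -- the vertices of the second polytope
  have hinj : Function.Injective (fun i => f (y i)) := by
    intro i j h
    exact y_injective (hbij.injOn ⟨i, rfl⟩ ⟨j, rfl⟩ h)
  have hrange : Set.range (fun i => f (y i)) = O := by
    rw [← hbij.image_eq]
    ext x
    constructor
    · rintro ⟨i, rfl⟩; exact ⟨y i, ⟨i, rfl⟩, rfl⟩
    · rintro ⟨_, ⟨i, rfl⟩, rfl⟩; exact ⟨i, rfl⟩
  have himg : ∀ I : Set (Fin 16), f '' (y '' I) = (fun i => f (y i)) '' I := by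
    intro I; rw [Set.image_image]
  have hfac' : ∀ I : Set (Fin 16), FJ I ↔ Fac O ((fun i => f (y i)) '' I) := by
    intro I
    rw [← himg, ← hfac (y '' I) (Set.image_subset_range _ _), fac_iff]
  obtain ⟨Y, hY⟩ : ∃ Y : Fin 16 → (Fin 5 → ℝ), Y = fun i => f (y i) := ⟨_, rfl⟩
  rw [← hY] at hinj hrange
  simp only [← hY] at hfac'
  -- the affine maps
  have hT : ∀ p : Fin 16 → Fin 16, (p = pr ∨ p = pu ∨ p = pt) → Function.Bijective p →
      ∃ T : (Fin 5 → ℝ) ≃ᵃ[ℝ] (Fin 5 → ℝ), ∀ i, T (Y i) = Y (p i) := by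
    intro p hp hpb
    have hσ : ∀ i, Function.extend Y (Y ∘ p) id (Y i) = Y (p i) := by
      intro i
      rw [hinj.extend_apply]; rfl
    obtain ⟨T, hT⟩ := hsym (Function.extend Y (Y ∘ p) id) (by
      refine ⟨?_, ?_, ?_⟩
      · intro x hx
        rw [← hrange] at hx ⊢
        obtain ⟨i, rfl⟩ := hx
        rw [hσ]; exact ⟨p i, rfl⟩
      · intro x hx x' hx' e
        rw [← hrange] at hx hx'
        obtain ⟨i, rfl⟩ := hx
        obtain ⟨j, rfl⟩ := hx'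
        rw [hσ, hσ] at e
        rw [hpb.injective (hinj e)]
      · intro x hx
        rw [← hrange] at hx ⊢
        obtain ⟨i, rfl⟩ := hx
        obtain ⟨j, rfl⟩ := hpb.surjective i
        exact ⟨Y j, ⟨j, rfl⟩, hσ j⟩) (by
      intro A hA
      have hAI : A = Y '' (Y ⁻¹' A) := by
        rw [Set.image_preimage_eq_inter_range, hrange, Set.inter_eq_left.mpr hA]
      generalize Y ⁻¹' A = I at hAI
      have e : Function.extend Y (Y ∘ p) id '' A = Y '' (p '' I) := by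
        rw [hAI, Set.image_image, Set.image_image]
        apply Set.image_congr
        intro i _
        exact hσ i
      rw [e, hAI, ← hfac', ← hfac', ← fac_iff, ← fac_iff]
      exact taskComb p hp I)
    refine ⟨T, fun i => ?_⟩
    rw [hT (Y i) (by rw [← hrange]; exact ⟨i, rfl⟩), hσ]
  obtain ⟨Tr, hTr⟩ := hT pr (Or.inl rfl) (by decide +kernel)
  obtain ⟨Tu, hTu⟩ := hT pu (Or.inr (Or.inl rfl)) (by decide +kernel)
  obtain ⟨Tt, hTt⟩ := hT pt (Or.inr (Or.inr rfl)) (by decide +kernel)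
  -- facets
  have hF : ∀ m : ℕ, m ∈ FM → ∃ ℓ : (Fin 5 → ℝ) →ₗ[ℝ] ℝ, ∃ c : ℝ, (∀ i, ℓ (Y i) ≤ c) ∧
      ∀ i : Fin 16, (tb m i.val = true ↔ ℓ (Y i) = c) := by
    intro m hm
    obtain ⟨ℓ, c, h1, h2⟩ := (hfac' (idxs m)).1 (FJ_mask m hm)
    refine ⟨ℓ, c, fun i => h1 _ (by rw [← hrange]; exact ⟨i, rfl⟩), fun i => ?_⟩
    constructor
    · intro h
      have : Y i ∈ Y '' idxs m := ⟨i, h, rfl⟩
      rw [h2] at this
      exact this.2
    · intro h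
      have : Y i ∈ Y '' idxs m := by
        rw [h2]; exact ⟨by rw [← hrange]; exact ⟨i, rfl⟩, h⟩
      obtain ⟨j, hj, e⟩ := this
      rw [← hinj e]; exact hj
  refine hAff Y hinj Tr Tu Tt hTr hTu hTt ?_ ?_
  · obtain ⟨ℓ, c, h1, h2⟩ := hF 255 (by decide +kernel)
    refine ⟨ℓ, c, fun i => ⟨fun h => ?_, fun h => ?_⟩⟩
    · have : ∀ i : Fin 16, i.val < 8 → tb 255 i.val = true := by decide +kernel
      exact (h2 i).1 (this i h)
    · have : ∀ i : Fin 16, 8 ≤ i.val → ¬ (tb 255 i.val = true) := by decide +kernel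
      exact lt_of_le_of_ne (h1 i) fun e => this i h ((h2 i).2 e)
  · obtain ⟨ℓ, c, h1, h2⟩ := hF 361 (by decide +kernel)
    refine ⟨ℓ, c, ⟨(h2 0).1 (by decide +kernel), (h2 3).1 (by decide +kernel),
      (h2 5).1 (by decide +kernel), (h2 6).1 (by decide +kernel), (h2 8).1 (by decide +kernel)⟩, ?_⟩
    have : ¬ (tb 361 (13 : Fin 16).val = true) := by decide +kernel
    exact lt_of_le_of_ne (h1 13) fun e => this ((h2 13).2 e)

end Pool.Agent.H620R3.OP
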