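import Pool.Agent.H620R3.OP.Stmts

/-!
Project H620-OP, task Grp (helper826): the 16 points are an orbit of a finite matrix group.
-/

set_option autoImplicit false

namespace Pool.Agent.H620R3.OP

open Matrix

/-- integer matrix of the rotation -/
def RZ : Matrix (Fin 5) (Fin 5) ℤ :=
  !![0, 0, 0, -1, 0; 1, 0, 0, 0, 0; 0, 1, 0, 0, 0; 0, 0, 1, 0, 0; 0, 0, 0, 0, 1]

/-- inverse of the rotation -/
def RZi : Matrix (Fin 5) (Fin 5) ℤ :=
  !![0, 1, 0, 0, 0; 0, 0, 1, 0, 0; 0, 0, 0, 1, 0; -1, 0, 0, 0, 0; 0, 0, 0, 0, 1]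

/-- integer matrix of the involution `s` -/
def SZ : Matrix (Fin 5) (Fin 5) ℤ :=
  !![1, 0, 0, 0, 0; 0, 0, 0, 1, 0; 0, 0, -1, 0, 0; 0, 1, 0, 0, 0; 0, 0, 0, 0, -1]

/-- the action of `s` on indices -/
def ps : Fin 16 → Fin 16 := ![8, 11, 14, 9, 12, 15, 10, 13, 0, 3, 6, 1, 4, 7, 2, 5]

/-- the rotation as an element of `GL` over `ℤ` -/
def RG : GL (Fin 5) ℤ := ⟨RZ, RZi, by decide, by decide⟩

/-- the involution as an element of `GL` over `ℤ` -/
def SG : GL (Fin 5) ℤ := ⟨SZ, SZ, by decide, by decide⟩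

/-- the rotation over `ℝ` -/
noncomputable def RR : GL (Fin 5) ℝ := Matrix.GeneralLinearGroup.map (Int.castRingHom ℝ) RG

/-- the involution over `ℝ` -/
noncomputable def SR : GL (Fin 5) ℝ := Matrix.GeneralLinearGroup.map (Int.castRingHom ℝ) SG

lemma y_inj : Function.Injective y := by
  intro i j h
  have h' : Yi i = Yi j := by
    funext k
    have := congrFun h k
    simpa [y] using this
  revert i j
  have key : ∀ i j : Fin 16, Yi i = Yi j → i = j := by decide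
  intro i j _ h'
  exact key i j h'

lemma cast_mulVec (A : Matrix (Fin 5) (Fin 5) ℤ) (i j : Fin 16) (h : A.mulVec (Yi i) = Yi j) :
    (A.map (Int.castRingHom ℝ)).mulVec (y i) = y j := by
  funext k
  have h1 := congrFun h k
  have h2 : (((A.mulVec (Yi i)) k : ℤ) : ℝ) = ((Yi j k : ℤ) : ℝ) := by rw [h1]
  simp only [Matrix.mulVec, dotProduct, Int.cast_sum, Int.cast_mul] at h2
  simp only [Matrix.mulVec, dotProduct, y, Matrix.map_apply]
  exact h2

lemma RR_act (i : Fin 16) : (RR : Matrix (Fin 5) (Fin 5) ℝ).mulVec (y i) = y (pr i) := by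
  have key : ∀ i : Fin 16, RZ.mulVec (Yi i) = Yi (pr i) := by decide
  exact cast_mulVec RZ i (pr i) (key i)

lemma SR_act (i : Fin 16) : (SR : Matrix (Fin 5) (Fin 5) ℝ).mulVec (y i) = y (ps i) := by
  have key : ∀ i : Fin 16, SZ.mulVec (Yi i) = Yi (ps i) := by decide
  exact cast_mulVec SZ i (ps i) (key i)

/-- the stabiliser of the 16 points -/
noncomputable def G0 : Subgroup (GL (Fin 5) ℝ) where
  carrier := {g | ∀ i, ∃ j, (g : Matrix (Fin 5) (Fin 5) ℝ).mulVec (y i) = y j}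
  one_mem' := by
    intro i
    exact ⟨i, by simp⟩
  mul_mem' := by
    intro a b ha hb i
    obtain ⟨j, hj⟩ := hb i
    obtain ⟨k, hk⟩ := ha j
    refine ⟨k, ?_⟩
    rw [Matrix.GeneralLinearGroup.coe_mul, ← Matrix.mulVec_mulVec, hj, hk]
  inv_mem' := by
    intro g hg j
    choose f hf using hg
    have hinv : ∀ x : Fin 5 → ℝ, ((g⁻¹ : GL (Fin 5) ℝ) : Matrix (Fin 5) (Fin 5) ℝ).mulVec
        ((g : Matrix (Fin 5) (Fin 5) ℝ).mulVec x) = x := by
      intro x
      rw [Matrix.mulVec_mulVec, ← Matrix.GeneralLinearGroup.coe_mul, inv_mul_cancel]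
      simp
    have hfi : Function.Injective f := by
      intro a b hab
      apply y_inj
      rw [← hinv (y a), ← hinv (y b), hf a, hf b, hab]
    obtain ⟨i, hi⟩ := (Finite.injective_iff_surjective.mp hfi) j
    exact ⟨i, by rw [← hi, ← hf i, hinv]⟩

lemma mem_G0 (g : GL (Fin 5) ℝ) :
    g ∈ G0 ↔ ∀ i, ∃ j, (g : Matrix (Fin 5) (Fin 5) ℝ).mulVec (y i) = y j := Iff.rfl

lemma G0_finite : (G0 : Set (GL (Fin 5) ℝ)).Finite := by
  apply Set.Finite.of_injOn (f := fun g : GL (Fin 5) ℝ =>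
    fun i : Fin 16 => (g : Matrix (Fin 5) (Fin 5) ℝ).mulVec (y i))
    (t := Set.pi Set.univ (fun _ : Fin 16 => Set.range y))
  · intro g hg i _
    obtain ⟨j, hj⟩ := (mem_G0 g).mp hg i
    exact ⟨j, hj.symm⟩
  · intro g _ g' _ h
    apply Units.ext
    ext a b
    have e : ∀ i : Fin 16, (g : Matrix (Fin 5) (Fin 5) ℝ).mulVec (y i) a
        = (g' : Matrix (Fin 5) (Fin 5) ℝ).mulVec (y i) a := by
      intro i
      exact congrFun (congrFun h i) a
    have e0 := e 0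
    have e1 := e 1
    have e2 := e 2
    have e3 := e 3
    have e4 := e 4
    have e5 := e 5
    have e6 := e 6
    have e7 := e 7
    have e8 := e 8
    simp only [Matrix.mulVec, dotProduct, Fin.sum_univ_five, y, Yi] at e0 e1 e2 e3 e4 e5 e6 e7 e8
    simp at e0 e1 e2 e3 e4 e5 e6 e7 e8
    fin_cases b <;> simp <;> linarith
  · exact Set.Finite.pi (fun _ => Set.finite_range y)

lemma RR_mem : RR ∈ G0 := (mem_G0 _).mpr (fun i => ⟨pr i, RR_act i⟩)

lemma SR_mem : SR ∈ G0 := (mem_G0 _).mpr (fun i => ⟨ps i, SR_act i⟩)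

lemma RR_pow_act (n : ℕ) (i : Fin 16) :
    ((RR ^ n : GL (Fin 5) ℝ) : Matrix (Fin 5) (Fin 5) ℝ).mulVec (y i) = y (pr^[n] i) := by
  induction n with
  | zero => simp
  | succ n ih =>
    rw [pow_succ', Matrix.GeneralLinearGroup.coe_mul, ← Matrix.mulVec_mulVec, ih, RR_act,
      Function.iterate_succ_apply']

theorem taskGrp : TaskGrp := by
  refine ⟨G0, G0_finite, ?_⟩
  ext x
  constructor
  · rintro ⟨g, hg, rfl⟩
    obtain ⟨j, hj⟩ := (mem_G0 g).mp hg 0
    exact ⟨j, hj.symm⟩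
  · rintro ⟨j, rfl⟩
    by_cases hj : j.val < 8
    · refine ⟨RR ^ j.val, G0.pow_mem RR_mem _, ?_⟩
      rw [RR_pow_act]
      congr 1
      revert j
      decide
    · refine ⟨RR ^ (j.val - 8) * SR, G0.mul_mem (G0.pow_mem RR_mem _) SR_mem, ?_⟩
      rw [Matrix.GeneralLinearGroup.coe_mul, ← Matrix.mulVec_mulVec, SR_act, RR_pow_act]
      congr 1
      revert j
      decide

end Pool.Agent.H620R3.OP
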