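import Pool.Agent.H620R3.OP.Stmts

set_option autoImplicit false

/-!
Task Span of project H620-OP: the 16 points affinely span `ℝ^5`.
-/

namespace Pool.Agent.H620R3.OP

private theorem decomp (z : Fin 5 → ℝ) :
    z = ((11/68) * z 0 + (3/68) * z 1 + (7/68) * z 2 + (5/68) * z 3 + (-2/17) * z 4) •
        (y 0 - y 4) +
      ((-5/68) * z 0 + (11/68) * z 1 + (3/68) * z 2 + (7/68) * z 3 + (-1/68) * z 4) •
        (y 1 - y 5) +
      ((-7/68) * z 0 + (-5/68) * z 1 + (11/68) * z 2 + (3/68) * z 3 + (-15/68) * z 4) •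
        (y 2 - y 6) +
      ((-3/68) * z 0 + (-7/68) * z 1 + (-5/68) * z 2 + (11/68) * z 3 + (-1/17) * z 4) •
        (y 3 - y 7) +
      ((1/2) * z 4) • (y 0 - y 8) := by
  funext k
  fin_cases k <;> simp [y, Yi] <;> ring

theorem taskSpan : TaskSpan := by
  unfold TaskSpan
  rw [eq_top_iff]
  intro x _
  have hmem : ∀ i : Fin 16, y i ∈ affineSpan ℝ (Set.range y) := fun i =>
    subset_affineSpan ℝ _ (Set.mem_range_self i)
  have hdir : ∀ i j : Fin 16, y i - y j ∈ (affineSpan ℝ (Set.range y)).direction := fun i j =>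
    AffineSubspace.vsub_mem_direction (hmem i) (hmem j)
  have h1 : x - y 0 ∈ (affineSpan ℝ (Set.range y)).direction := by
    rw [decomp (x - y 0)]
    exact Submodule.add_mem _ (Submodule.add_mem _ (Submodule.add_mem _ (Submodule.add_mem _
      (Submodule.smul_mem _ _ (hdir 0 4)) (Submodule.smul_mem _ _ (hdir 1 5)))
      (Submodule.smul_mem _ _ (hdir 2 6))) (Submodule.smul_mem _ _ (hdir 3 7)))
      (Submodule.smul_mem _ _ (hdir 0 8))
  have h2 := AffineSubspace.vadd_mem_of_mem_direction h1 (hmem 0)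
  simpa using h2

end Pool.Agent.H620R3.OP
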