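import Mathlib

/-!
Project H620-OP: frozen S08302 (negation of MP_3f311b_co), an orbit polytope of the semidihedral
group of order 16 in R^5 (16 vertices, 98 facets) with a combinatorial symmetry that is not affine
in any realisation.  Definitions and task statements.
-/

set_option autoImplicit false

namespace Pool.Agent.H620R3.OP

/-- integer coordinates of the 16 vertices: `r^j v` (`j < 8`) and `r^j s v` (`8 + j`),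
`v = (2,0,1,1 | 1)`, `r(a,b,c,d | e) = (-d,a,b,c | e)`, `s(a,b,c,d | e) = (a,d,-c,b | -e)` -/
def Yi : Fin 16 → Fin 5 → ℤ :=
  ![![2, 0, 1, 1, 1], ![-1, 2, 0, 1, 1], ![-1, -1, 2, 0, 1], ![0, -1, -1, 2, 1],
    ![-2, 0, -1, -1, 1], ![1, -2, 0, -1, 1], ![1, 1, -2, 0, 1], ![0, 1, 1, -2, 1],
    ![2, 1, -1, 0, -1], ![0, 2, 1, -1, -1], ![1, 0, 2, 1, -1], ![-1, 1, 0, 2, -1],
    ![-2, -1, 1, 0, -1], ![0, -2, -1, 1, -1], ![-1, 0, -2, -1, -1], ![1, -1, 0, -2, -1]]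

/-- the vertices as real vectors -/
noncomputable def y (i : Fin 16) : Fin 5 → ℝ := fun k => (Yi i k : ℝ)

/-- the rotation `r` -/
def pr : Fin 16 → Fin 16 := ![1, 2, 3, 4, 5, 6, 7, 0, 9, 10, 11, 12, 13, 14, 15, 8]

/-- the combinatorial involution `u` -/
def pu : Fin 16 → Fin 16 := ![9, 10, 11, 12, 13, 14, 15, 8, 7, 0, 1, 2, 3, 4, 5, 6]

/-- the combinatorial involution `τ` -/
def pt : Fin 16 → Fin 16 := ![0, 3, 6, 1, 4, 7, 2, 5, 10, 13, 8, 11, 14, 9, 12, 15]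

/-- `A` is the vertex set of a face of `conv S` (exactly the frozen statement's `facial`) -/
def Fac (S A : Set (Fin 5 → ℝ)) : Prop :=
  ∃ ℓ : (Fin 5 → ℝ) →ₗ[ℝ] ℝ, ∃ c : ℝ, (∀ x ∈ S, ℓ x ≤ c) ∧ A = {x | x ∈ S ∧ ℓ x = c}

/-- TASK Aff: no 16 points with affine maps inducing `r, u, τ` can have the facets
`{0,…,7}` and `{0,3,5,6,8}`. -/
def TaskAff : Prop := ∀ Y : Fin 16 → (Fin 5 → ℝ), Function.Injective Y →
  ∀ Tr Tu Tt : (Fin 5 → ℝ) ≃ᵃ[ℝ] (Fin 5 → ℝ),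
  (∀ i, Tr (Y i) = Y (pr i)) → (∀ i, Tu (Y i) = Y (pu i)) → (∀ i, Tt (Y i) = Y (pt i)) →
  (∃ ℓ : (Fin 5 → ℝ) →ₗ[ℝ] ℝ, ∃ c : ℝ, ∀ i : Fin 16,
    (i.val < 8 → ℓ (Y i) = c) ∧ (8 ≤ i.val → ℓ (Y i) < c)) →
  (∃ ℓ : (Fin 5 → ℝ) →ₗ[ℝ] ℝ, ∃ c : ℝ,
    (ℓ (Y 0) = c ∧ ℓ (Y 3) = c ∧ ℓ (Y 5) = c ∧ ℓ (Y 6) = c ∧ ℓ (Y 8) = c) ∧ ℓ (Y 13) < c) →
  False

/-- TASK Grp: the 16 points are an orbit of a finite matrix group. -/
def TaskGrp : Prop := ∃ G : Subgroup (Matrix.GeneralLinearGroup (Fin 5) ℝ),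
  (G : Set (Matrix.GeneralLinearGroup (Fin 5) ℝ)).Finite ∧
  {x | ∃ g ∈ G, x = Matrix.mulVec (g : Matrix (Fin 5) (Fin 5) ℝ) (y 0)} = Set.range y

/-- TASK Span -/
def TaskSpan : Prop := affineSpan ℝ (Set.range y) = ⊤

/-- TASK Comb: `r, u, τ` preserve the faces of `conv (range y)`. -/
def TaskComb : Prop := ∀ p : Fin 16 → Fin 16, (p = pr ∨ p = pu ∨ p = pt) →
  ∀ I : Set (Fin 16), (Fac (Set.range y) (y '' I) ↔ Fac (Set.range y) (y '' (p '' I)))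

end Pool.Agent.H620R3.OP
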